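import Pool.Agent.H897.QH

/-!
MP_c2a5fc_ag, Q1: the effective canonical flag of a projective manifold (or pair) with a nonzero
tensor differential: an unconditional reduction of the nonvanishing part of the abundance conjecture
to the canonical classes of finitely many invariant distributions.

**The pair.** `NormalModel y` (`Pool/Agent/Y172/Defs.lean`): `y` is the generic point, in
homogeneous coordinates, of a normal projective variety `X` with function field `K`, for instance of
a projective manifold `M`. `Δ` is a `ℚ`-divisor, with the coefficient `Δ P` at the prime divisor `P`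
(`IsPrimeDivisor y P`); `Δ = 0` is the case of the question. `IsSection y n d D ω`: `ω` is a section
of `d K_X + D`. `FinSup y e`: `e` is a divisor (its support is finite).

**The tensors** (`TS.lean`, `RH.lean`). `Twisted a T`: `T` is a rational section of
`(Ω¹) ^ ⊗ m ⊗ O (a K_X)`, given as a tensor `T E` which depends on the choice of a basis `E` of the
rational vector fields and is multiplied with `det A ^ a` if `E` is changed by the matrix `A`.
`OrbAtL δ ℓ P a T`: along the prime divisor `P` with the coefficient `δ = Δ P`, it is a section of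
the `m`-th tensor power of the orbifold cotangent sheaf `Ω¹ (X, Δ)` with values in
`a (K_X + Δ) + L`, `ℓ = L P`. For `Δ = 0`, `a = 0` and `L = 0` these are the holomorphic tensors.
`S` is any set of such tensors which are not all `0`, `p = m + n a ≥ 0`. `pullTw φ T`: the pull-back
of `T` under the birational automorphism of `X` which is given by the automorphism `φ` of `K`;
`pushD φ D`: the image of the vector field `D`.

**The flag** (`QE.lean`, `RF.lean`). `flagSp K b k`: the distribution `F_k` which is spanned by the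
rational vector fields `b j`, `j < k`. `WedgeOrd n δ P D e`: `e` is the order along `P` of
`D 0 ∧ ⋯ ∧ D (k - 1)` as a rational section of the `k`-th exterior power of the orbifold tangent
sheaf `T (X, Δ)`. So `∑ e k P • P` represents `det F_k`, for the saturated subsheaf `F_k` of
`T (X, Δ)`; `- det F_k` is the canonical class of the distribution.

**Theorem.** There are `M ≥ 1`, a flag `F_1 ⊂ ⋯ ⊂ F_{n-1}` of distributions, `rk F_k = k`, and
integers `A k ≥ 0`, such that
(1) `M (p (K_X + Δ) + n L) + ∑ A k (n det F_k + k (K_X + Δ))` is linearly equivalent to an effective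
divisor;
(2) so for each movable class `α` we have `M (p (K_X + Δ) . α + n L . α) + ∑ A k (n det F_k . α +
k (K_X + Δ) . α) ≥ 0`: if `(K_X + Δ) . α ≤ 0` and `L . α ≤ 0` then the flag with the weights `A k`
does not have smaller slopes than `T (X, Δ)`, and this one flag has this property for all such `α`;
(3) if the canonical classes `- det F_k` with `A k ≠ 0` are `ℚ`-effective then a multiple of
`(M p + ∑ k A k) (K_X + Δ) + n M L` has a nonzero section; so `κ (K_X + Δ) ≥ 0` if `L = 0`, `p ≥ 1`;
(4) all `A k` are `0` (and then `p (K_X + Δ) + n L` is `ℚ`-effective), or all tensors of `S` vanish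
on some `F_k` with `A k ≠ 0`;
(5) the distributions `F_k` with `A k ≠ 0` are invariant under all birational automorphisms of `X`
which preserve the set `S`, for instance under `Bir (M)` if `M` is a projective manifold and `S` is
the set of all holomorphic tensors of degree `m`.

**Proof.** Kempf's canonical optimal flag of `S` at the generic point; the leading parts of the
tensors times powers of the volume forms of the graded pieces form a semistable family
(Ramanan-Ramanathan), so it has a nonvanishing semi-invariant, a rational function. Its order along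
each prime divisor is estimated by means of an orthogonalisation of a basis adapted to the flag.
-/

set_option autoImplicit false

open FF Pool.Agent.W602.GT Pool.Agent.Y172 Pool.Agent.NH31 Pool.Agent.TH466.QG Pool.Agent.H897

namespace Pool.Agent.Results.MP_c2a5fc_ag.EffectiveFlag

/-- **The effective canonical flag of a set of tensor differentials.** -/
theorem result {K : Type} [Field K] [Algebra ℂ K] {N n : ℕ} {y : Fin (N + 1) → K}
    (hy : NormalModel y) (hn : Algebra.trdeg ℂ K = n) (hn1 : 1 ≤ n) {Δ : Place ℂ K → ℚ}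
    (hΔ : FinSup y Δ) {m p : ℕ} (hm : 1 ≤ m) {a : ℤ} (hp : (p : ℤ) = m + n * a)
    {L : Place ℂ K → ℚ}
    (S : Set ((Fin n → Derivation ℂ K K) →
      MultilinearMap K (fun _ : Fin m => Derivation ℂ K K) K))
    (hT : ∀ T ∈ S, Twisted a T)
    (hTO : ∀ T ∈ S, ∀ P, IsPrimeDivisor y P → OrbAtL (Δ P) (L P) P a T)
    {E : Fin n → Derivation ℂ K K} (hE : IsFrame E) (hT0 : ∃ T ∈ S, T E ≠ 0) :
    ∃ (M : ℕ) (A : ℕ → ℕ) (b : Fin n → Derivation ℂ K K) (e : ℕ → Place ℂ K → ℚ), 1 ≤ M ∧
      LinearIndependent K b ∧
      (∀ k (hk : k < n), 1 ≤ k → FinSup y (e k) ∧ ∀ P, IsPrimeDivisor y P →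
        WedgeOrd n (Δ P) P (fun i : Fin k => b (Fin.castLE hk.le i)) (e k P)) ∧
      (∃ ω : (Fin n → Derivation ℂ K K) → K, ω ≠ 0 ∧
        IsSection y n (M * p + ∑ k ∈ Finset.Ico 1 n, k * A k)
          ((M * p + ∑ k ∈ Finset.Ico 1 n, k * A k) • Δ + (n * M) • L +
            ∑ k ∈ Finset.Ico 1 n, (n * A k) • e k) ω) ∧
      (∀ (α : Place ℂ K → ℝ) (c lam : ℝ) (s : ℕ → ℝ), MovableClass y α → LogDegree y n Δ α c →
        HasDeg y α (fun P => L P) lam → (∀ k, 1 ≤ k → k < n → HasDeg y α (fun P => e k P) (s k)) →
        0 ≤ M * (p * c + n * lam) + ∑ k ∈ Finset.Ico 1 n, A k * (n * s k + k * c)) ∧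
      ((∀ k, 1 ≤ k → k < n → A k ≠ 0 → ∃ (r : ℕ) (g : K), 1 ≤ r ∧ g ≠ 0 ∧
          ∀ P, IsPrimeDivisor y P → r * e k P ≤ P.ord g) →
        ∃ (r : ℕ) (η : (Fin n → Derivation ℂ K K) → K), 1 ≤ r ∧ η ≠ 0 ∧
          IsSection y n (r * (M * p + ∑ k ∈ Finset.Ico 1 n, k * A k))
            ((r * (M * p + ∑ k ∈ Finset.Ico 1 n, k * A k)) • Δ + (r * (n * M)) • L) η) ∧
      ((∀ k, 1 ≤ k → k < n → A k = 0) ∨ ∃ k, 1 ≤ k ∧ k < n ∧ A k ≠ 0 ∧ ∀ T ∈ S,
        ∀ D : Fin m → Derivation ℂ K K, (∀ s, D s ∈ flagSp K b k) → T E D = 0) ∧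
      ∀ φ : K ≃ₐ[ℂ] K, (∀ T ∈ S, pullTw φ T ∈ S) → ∀ k, 1 ≤ k → k < n → A k ≠ 0 →
        ∀ D ∈ flagSp K b k, pushD φ D ∈ flagSp K b k := by
  obtain ⟨M, A, b, e, ω, h1, h2, h3, h4, h5, h6, h7⟩ :=
    eff_flag hy hn hn1 hΔ hm hp S hT hTO hE hT0
  exact ⟨M, A, b, e, h1, h2, h3, ⟨ω, h4, h5⟩,
    fun α c lam s hα hc hL hs => flag_num hy hn h4 h5 hα hc hL fun k hk hk' _ => hs k hk hk',
    fun h => flag_eff hy hn h4 h5 h, h6, h7⟩

end Pool.Agent.Results.MP_c2a5fc_ag.EffectiveFlag
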