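import Mathlib
import Pool.Agent.H890.Smo3

/-!
MP_c2a5fc_ag, Q1: adjoint bundles. `κ = ν` for manifolds with nef canonical bundle implies (is
equivalent to) `κ = ν` for the nef adjoint bundles `K_X + Λ` on manifolds `X`, `Λ` being a line bundle
such that some multiple `N Λ`, `N ≥ 3`, has a smooth divisor.
-/

set_option autoImplicit false

namespace Pool.Agent.Results.MP_c2a5fc_ag.FermatBundles

open FF Pool.Agent.Y172 Pool.Agent.R887 Pool.Agent.H890

/-- (1) Let `X` be a projective manifold over `ℂ` of dimension `n ≥ 1` with function field `K` (`y`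
is its generic point, in homogeneous coordinates). Let `D` be a smooth divisor on `X` (it may be zero
or disconnected) which is linearly equivalent to `N Λ`, `Λ` being a divisor, `N = r + 2 ≥ 3`, the
divisor of the function `s` being `D - N Λ`. Then there is a projective manifold `V` of dimension
`n + N - 2`, with generic point `v` and function field `M`, with the following properties.

* `M` is the function field of the Fermat hypersurface
  `z_0 ^ N + s z_1 ^ N + z_2 ^ N + … + z_{N-1} ^ N = 0` in `P ^ (N - 1)` over `K`.
* `K_V` is nef if `K_X + (1 / N) D` is nef, both divisors have the same Kodaira dimension, and the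
  numerical dimension of `K_V` is at least the numerical dimension of `K_X + (1 / N) D` (`Lifts`,
  which contains also the equivalence of the semiampleness of both divisors).

(2) Hence Q1 (for manifolds of all dimensions `≥ 1`) is equivalent to the following: if `X, D, Λ, N`
are as in (1) and `K_X + (1 / N) D` (which is `ℚ`-linearly equivalent to the adjoint divisor
`K_X + Λ`) is nef, then its Kodaira dimension and its numerical dimension are equal (more exactly, the
numerical dimension is at most the Kodaira dimension; the other inequality is standard). -/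
theorem result :
    (∀ (K : Type) [Field K] [Algebra ℂ K] (n r N : ℕ) (y : Fin (N + 1) → K)
      (D Λ : Place ℂ K → ℤ) (s : K), Algebra.trdeg ℂ K = n → 1 ≤ n → 1 ≤ r →
      NormalModel y → SmoothPair y n D → Divides y n (r + 2) D Λ s →
      ∃ (M : Type) (_ : Field M) (_ : Algebra ℂ M) (_ : Algebra K M) (_ : IsScalarTower ℂ K M)
        (z : Fin (r + 2) → M) (N' : ℕ) (v : Fin (N' + 1) → M), FermatField K s r 1 z ∧
        Lifts v (n + r) y n (fun P => (1 : ℚ) / (r + 2 : ℕ) * D P) ∧
        SmoothVariety v (n + r)) ∧
    ((∀ (K : Type) [Field K] [Algebra ℂ K] (n N : ℕ) (y : Fin (N + 1) → K),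
        Algebra.trdeg ℂ K = n → 1 ≤ n → NormalModel y → SmoothVariety y n → CanonicalNef y n →
        WeakAbundance y n 0) ↔
      ∀ (K : Type) [Field K] [Algebra ℂ K] (n r N : ℕ) (y : Fin (N + 1) → K)
        (D Λ : Place ℂ K → ℤ) (s : K), Algebra.trdeg ℂ K = n → 1 ≤ n → 1 ≤ r →
        NormalModel y → SmoothPair y n D → Divides y n (r + 2) D Λ s →
        LogNef y n (fun P => (1 : ℚ) / (r + 2 : ℕ) * D P) →
        WeakAbundance y n (fun P => (1 : ℚ) / (r + 2 : ℕ) * D P)) := by
  refine ⟨fun K _ _ n r N y D Λ s hn hn1 hr hy hsm hD =>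
    fermat_smooth K hr hn1 hn hy hD hsm, ⟨fun h => ?_, fun h => ?_⟩⟩
  · intro K _ _ n r N y D Λ s hn hn1 hr hy hsm hD hnef
    obtain ⟨M, _, _, _, _, z, N', v, h1, h2, h3⟩ := fermat_smooth K hr hn1 hn hy hD hsm
    exact weak_of_lifts h2 (h M _ N' v h2.trdeg (by omega) h2.normal h3 (h2.nef hnef))
  · intro K _ _ n N y hn hn1 hy hsm hnef
    have h1 := h K n 1 N y 0 0 1 hn hn1 le_rfl hy (smoothPair_zero hy hsm) (divides_zero y n 3)
    have h2 : (fun P : Place ℂ K => (1 : ℚ) / (1 + 2 : ℕ) *
        (((0 : Place ℂ K → ℤ) P : ℤ) : ℚ)) = 0 := by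
      funext P
      simp
    rw [h2] at h1
    exact h1 (logNef_zero.2 hnef)

end Pool.Agent.Results.MP_c2a5fc_ag.FermatBundles
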