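import Pool.Agent.H891.RB.Grow
import Pool.Agent.H891.RB.Ratios

/-!
# A reverse Brascamp-Lieb inequality for the images of a variety, and abundance of the images

MP_c2a5fc_ag, Q1. Let `V` be a projective variety of dimension `n` with function field `K` (for
example a projective manifold with nef canonical bundle). A multivalued map of `V` is a rational map
`φ : V' ⇢ Y` of a Galois covering `V' → V`, with function field `L ⊇ K`, onto a variety `Y`, i.e. a
subfield `ℂ(Y)` of `L`. Let `φ j : V ⇢ Y j` (`j < r`) be multivalued maps, with fibres `F j` of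
dimension `f j = n - dim (Y j) ≥ 1`, let `T j` be the tangent spaces of the `F j` at the general point
of `V`, and let `q j = c j / d > 0` be rational weights such that

`n - dim U ≤ ∑ q j (f j - dim (U ∩ T j))` for all distributions `U ⊆ T_V` on `V`,
with equality for `U = 0`: `n = ∑ q j f j`

(the condition of Bennett, Carbery, Christ and Tao, but only for the subspaces `U` of the tangent
space at the general point which are rational over `K`). Put `p j = c j / d'`, `d' = ∑ c j - d`; so
`n = ∑ p j dim (Y j)` and `dim U ≤ ∑ p j dim (dφ j (U))` for all `U`. Let `Δ`, `Δ j` be divisors on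
`V` and `Y j` with the ramification bound `RamBound`; for `L = K` (the maps are single-valued) the
bound is satisfied for `Δ = 0`, `Δ j = 0`. Then:

(1) **Reverse inequality for the plurigenera.** There is a number `D ≥ 1` such that, if the maps are
single-valued, for all `T`

`∏ h⁰ (Y j, T (K + Δ j)) ^ (D c j) ≤ h⁰ (V, T d' D (K + Δ)) ^ (d' D)`,

and for multivalued maps the same up to a factor, with arbitrary twists: for all divisors `A j` on the
`Y j` there is a divisor `A'` on `V` such that for all `T`, with `g = [L : K]`,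

`∏ h⁰ (Y j, T (K + Δ j) + A j) ^ (g D c j) ≤ (g h⁰ (V, T d' g D (K + Δ) + A')) ^ (d' g D)`.

(2) `ν(V, K + Δ) ≥ ∑ p j ν(Y j, K + Δ j)`, for `ν(Y j) ≥ ν j` in the sense that the sections of
`m (K + Δ j) + A j` grow at least like `m ^ ν j`. If there is equality, `ν(V) = ∑ p j ν j`, then they do
not grow faster: `ν(Y j) = ν j`.

(3) `κ(V, K + Δ) ≥ ∑ p j κ(Y j, K + Δ j)` if `κ(Y j, K + Δ j) ≥ 0` for all `j`.

(4) **Abundance of the images.** If `ν(V, K + Δ) ≤ ∑ p j κ(Y j, K + Δ j)` then `κ = ν` holds for
`(V, Δ)` and for all the images `(Y j, Δ j)`: `κ(V) = ν(V) = ∑ p j κ(Y j)` and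
`κ(Y j) = ν(Y j)` for all `j`.

(5) `ν(V, K + Δ) ≤ ∑ q j ν(F j, K + Δ)`. So the assumption of (4) is satisfied if
`∑ q j ν(F j, K + Δ) ≤ ∑ p j κ(Y j, K + Δ j)`.

So `∑ p j ν(Y j) ≤ ν(V) ≤ ∑ q j ν(F j)`, `∑ p j κ(Y j) ≤ κ(V)`. Examples.

* One multivalued map to a variety `Y` of dimension `y`: `q = n / (n - y)`, `p = n / y`, the condition
  is `dim U / n ≤ dim (dφ (U)) / y` for all distributions `U`, a stability condition for the
  configuration of the conjugates of the tangent space `T` of the fibre; for `y = 1` it says that the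
  intersection of the conjugates of `T` is `0`. Then `κ(V) / n ≥ κ(Y) / y`, `ν(V) / n ≥ ν(Y) / y`; and
  if `κ(V) = ν(V)` and `κ(V) / n = κ(Y) / y` then `κ(Y) = ν(Y)`.
* Three maps of a threefold to surfaces whose fibres have independent directions:
  `ν(V) ≥ (ν(Y 1) + ν(Y 2) + ν(Y 3)) / 2`.

This is an algebraic analogue of the *reverse* Brascamp-Lieb inequality of Barthe (a lower bound for
the volume of the image of a product by the dual maps, with the same condition). The forward
inequality (5), an upper bound for the sections on `V` by the sections on the fibres, is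
`BrascampLieb` (MP_fa3f7f_ag). The inequality of divisors `K_V + Δ ≥ ∑ p j φ j^* (K + Δ j)` is
`RiemannHurwitz` (MP_fa3f7f_ag): from this inequality one only gets products of single
sections, which bound `κ(V)` from below. The estimates (1), (2), (4) need that the products of the
elements of spaces of sections on the different `Y j` generate a *large* space of sections on `V`,
for sections of `T (K + Δ j) + A j`, without any positivity or fibration. E.g. for one multivalued
map: if `W` is a space of functions on `Y` of dimension `P`, then the products of conjugates of the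
elements of `W` (each conjugate occurs `D c` times) generate a space of dimension at least
`P ^ (c / d') = P ^ (n / y)`.

Conventions. The fibres of `φ j` are given by the algebraic closure `B j` of `ℂ(Y j)` in the algebraic
closure of `K` (`IsFibres`). `BLDist`: the condition above, where `IsDistribution U` means that `U` is
generated by derivations which map `K` into itself, and `Tan (B j)` are the derivations of the
algebraic closure of `K` which vanish on `B j`. `PairSec k M n δ S m b ω`: the rational `m`-canonical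
form `ω` is a section of `m (K + Δ) + b A`, `Δ` the divisor with the multiplicities `δ v` at the prime
divisors over the variety with function field `M`, and `A` the divisor generated by the finite set `S`
of functions (`S = {1}`, `b = 0`: a section of `m (K + Δ)`). `HasIndep k M n N P`: there are `N`
linearly independent forms with the property `P`. `PairKod k M n δ h`: `κ(K + Δ) ≥ h`.
`PairNum k M n δ h`: `ν(K + Δ) ≤ h`, that is `h⁰(m (K + Δ) + A) ≤ C m ^ h` for all `A`.
`NumGe k M n δ h`: `ν(K + Δ) ≥ h`, that is `h⁰(m (K + Δ) + A) ≥ m ^ h / C` for all `m ≥ 1`, for some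
`A`, `C`; this follows from `κ(K + Δ) ≥ h` (part (6) of the theorem). `IsRestrMem B δ δ'`: `δ'` is the
restriction of `δ` to the general member (`δ' = 0` for `δ = 0`), `MemNum B f δ' ν`:
`ν(F, K + Δ) ≤ ν` for the geometric generic member.

The proof of (1). For suitable constant vectors the tangent map `T_V ^ N → ⊕ T_{Y a}` at the general
point is an isomorphism; here the sum is over all values of all the maps `φ j`, each with the
multiplicity `D c j`, and `N = d' g D` (this is the condition, by an existence theorem for matrices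
without rank defect). Let `W a` be a space of functions on `Y a` of dimension `P a`. The leading forms
of the Taylor expansions of the elements of `W a` (with coefficients in the algebraic closure `Ω` of
`K`) generate a space of at least `P a` polynomials on `T_{Y a}`, invariant under translations. So the
products of these polynomials in the variables `∑ i, X i a x i` generate a space of functions on
`T_V ^ N` of dimension `≥ ∏ P a`. As functions of one of the variables `x i` they are in the space
generated by the leading forms of the elements of `∏ W a`, hence the dimension is at most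
`(dim ∏ W a) ^ N`. The product of the determinant of the isomorphism with sections on the `Y a` is
a section on `V'` (logarithmic forms, as in `RiemannHurwitz`), and the traces of such sections are
sections on `V`. For (2), (4) compare the growth for `T → ∞`: the twists are arbitrary. For (3): the
cotangent space of the image of `V'` under the conjugates of the Iitaka fibrations is one of the
subspaces for which the condition gives an inequality.
-/

set_option autoImplicit false

open FF Pool.Agent.W619.TW Pool.Agent.Y174 Pool.Agent.H891.TY Pool.Agent.H891.BL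
  Pool.Agent.H891.RH Pool.Agent.H891.RB

namespace Pool.Agent.Results.MP_c2a5fc_ag.ReverseBrascampLieb

/-- **Reverse Brascamp-Lieb inequality for the images of a variety.** Let `V` be a projective variety
of dimension `n` with function field `K`, `L` a finite Galois extension of `K`, and let `Y j ⊆ L` be
function fields of varieties of dimension `y j`; let `B j` be the algebraic closure of `Y j`, i.e. the
family of the fibres of the multivalued map `V ⇢ Y j`, of dimension `f j = n - y j`. Let the weights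
`c j / d`, `c j ≥ 1`, `∑ c j f j = d n`, satisfy the Brascamp-Lieb condition for all distributions on
`V` (`BLDist`), and let `d' = ∑ c j - d ≥ 1`. Let `g = [L : K]`. Then

(1) There is a `D ≥ 1` such that for all divisors `A j` on `Y j` (generated by `S j`) there is a divisor
`A'` on `V` (generated by `S'`) such that for all divisors `Δ`, `Δ j` with `RamBound`, all `T`, `b` and
all `P j` sections of `T (K + Δ j) + b A j` on `Y j`:
`∏ P j ^ (g D c j) ≤ (g h⁰(T d' g D (K_V + Δ) + (b + 1) A')) ^ (d' g D)`; and for `L = K`: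
`∏ h⁰(Y j, T (K + Δ j)) ^ (D c j) ≤ h⁰(V, T d' D (K + Δ)) ^ (d' D)`.

For all divisors `Δ`, `Δ j` with `RamBound`:

(2) If `ν(V) ≤ h` and `ν(Y j) ≥ ν j` then `∑ c j ν j ≤ d' h`; if there is equality then `ν(Y j) ≤ ν j`.

(3) If `κ(Y j) ≥ κ j` and `d' h < ∑ c j κ j + d'` then `κ(V) ≥ h`.

(4) If `κ(Y j) ≥ κ j`, `d' h ≤ ∑ c j κ j` and `ν(V) ≤ h` then `κ(V) ≥ h` and `ν(Y j) ≤ κ j`, so
`κ(V) = ν(V) = h`, `κ(Y j) = ν(Y j) = κ j`, and `d' h = ∑ c j κ j`.

(5) If `ν(F j, K + Δ) ≤ ν j` for all `j` and `∑ c j ν j ≤ d h` then `ν(V) ≤ h`.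

(6) `κ(Y j) ≥ h` implies `ν(Y j) ≥ h`. -/
theorem result {K : Type} [Field K] [Algebra ℂ K] [Algebra.EssFiniteType ℂ K] {n : ℕ}
    (hn : Algebra.trdeg ℂ K = n) (L : IntermediateField K (AlgebraicClosure K))
    [FiniteDimensional K L] [IsGalois K L] {r : ℕ} (Y : Fin r → IntermediateField ℂ L)
    [∀ j, Algebra.EssFiniteType ℂ (Y j)] (B : Fin r → IntermediateField ℂ (AlgebraicClosure K))
    (y f : Fin r → ℕ) (hY : ∀ j, IsFibres L (Y j) (B j) n (y j) (f j)) (c : Fin r → ℕ)
    (hc : ∀ j, 1 ≤ c j) (d d' : ℕ) (hd : 1 ≤ d) (hd' : 1 ≤ d') (hdd : d + d' = ∑ j, c j)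
    (hs : ∑ j, c j * f j = d * n) (hBL : BLDist n B f c d) :
    (∃ D : ℕ, 0 < D ∧
      (∀ S : ∀ j, Finset (Y j), ∃ S' : Finset K, ∀ (δ : Place ℂ K → ℝ)
        (δY : ∀ j, Place ℂ (Y j) → ℝ), RamBound n L δ Y δY c d' →
        ∀ (T b M : ℕ) (P : Fin r → ℕ),
        (∀ j, HasIndep ℂ (Y j) (y j) (P j) (PairSec ℂ (Y j) (y j) (δY j) (S j) T b)) →
        (∀ M', HasIndep ℂ K n M'
          (PairSec ℂ K n δ S' (T * (d' * Nat.card (L ≃ₐ[K] L) * D)) (b + 1)) → M' ≤ M) →
        ∏ j, P j ^ (Nat.card (L ≃ₐ[K] L) * (D * c j)) ≤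
          (Module.finrank K L * M) ^ (d' * Nat.card (L ≃ₐ[K] L) * D)) ∧
      (L = ⊥ → ∀ (δ : Place ℂ K → ℝ) (δY : ∀ j, Place ℂ (Y j) → ℝ), RamBound n L δ Y δY c d' →
        ∀ (T M : ℕ) (P : Fin r → ℕ),
        (∀ j, HasIndep ℂ (Y j) (y j) (P j) (PairSec ℂ (Y j) (y j) (δY j) {1} T 0)) →
        (∀ M', HasIndep ℂ K n M' (PairSec ℂ K n δ {1} (T * (d' * D)) 0) → M' ≤ M) →
        ∏ j, P j ^ (D * c j) ≤ M ^ (d' * D))) ∧
    (∀ (δ : Place ℂ K → ℝ) (δY : ∀ j, Place ℂ (Y j) → ℝ), RamBound n L δ Y δY c d' → ∀ h : ℕ,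
      (PairNum ℂ K n δ h → ∀ ν : Fin r → ℕ, (∀ j, NumGe ℂ (Y j) (y j) (δY j) (ν j)) →
        ∑ j, c j * ν j ≤ d' * h ∧
          (∑ j, c j * ν j = d' * h → ∀ j, PairNum ℂ (Y j) (y j) (δY j) (ν j))) ∧
      (∀ κ : Fin r → ℕ, (∀ j, PairKod ℂ (Y j) (y j) (δY j) (κ j)) →
        (d' * h < ∑ j, c j * κ j + d' → PairKod ℂ K n δ h) ∧
        (d' * h ≤ ∑ j, c j * κ j → PairNum ℂ K n δ h → PairKod ℂ K n δ h ∧
          (∀ j, PairNum ℂ (Y j) (y j) (δY j) (κ j)) ∧ d' * h = ∑ j, c j * κ j)) ∧
      ∀ δ' : ∀ j, MemDiv (B j), (∀ j, IsRestrMem (B j) δ (δ' j)) → ∀ ν : Fin r → ℕ,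
        (∀ j, MemNum (B j) (f j) (δ' j) (ν j)) → ∑ j, c j * ν j ≤ d * h → PairNum ℂ K n δ h) ∧
    ∀ (j : Fin r) (δ : Place ℂ (Y j) → ℝ) (h : ℕ), PairKod ℂ (Y j) (y j) δ h →
      NumGe ℂ (Y j) (y j) δ h := by
  classical
  have hkn : ∀ (j : Fin r) (δ : Place ℂ (Y j) → ℝ) (h : ℕ), PairKod ℂ (Y j) (y j) δ h →
      NumGe ℂ (Y j) (y j) δ h := fun j δ h hk => kod_num (hY j).dim hk
  refine ⟨rb inferInstance hn hY hd' hdd hBL hs, fun δ δY hram h => ?_, hkn⟩
  have hnum : PairNum ℂ K n δ h → ∀ ν : Fin r → ℕ,
      (∀ j, NumGe ℂ (Y j) (y j) (δY j) (ν j)) → ∑ j, c j * ν j ≤ d' * h ∧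
        (∑ j, c j * ν j = d' * h → ∀ j, PairNum ℂ (Y j) (y j) (δY j) (ν j)) :=
    fun hh ν hν => ⟨num_ge inferInstance hn hY hd' hdd hBL hs hram hh hν,
      fun he j => images inferInstance hn hY hd' hdd hBL hs hc hram hh hν he.symm.le j⟩
  have hkod : ∀ κ : Fin r → ℕ, (∀ j, PairKod ℂ (Y j) (y j) (δY j) (κ j)) →
      d' * h < ∑ j, c j * κ j + d' → PairKod ℂ K n δ h := by
    intro κ hκ hle
    obtain ⟨x₁, hx₁⟩ := Pool.Agent.W636.PG.exists_basis ℂ K n hn
    have hxΩ₁ : IsTranscendenceBasis ℂ (algebraMap K (AlgebraicClosure K) ∘ x₁) :=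
      hx₁.algebraMap_comp
    obtain ⟨G₁, hG₁⟩ := Pool.Agent.W636.PG.exists_duals ℂ (AlgebraicClosure K) n _ hxΩ₁
    obtain ⟨a, z, hz, hzR, ha⟩ := exists_ratios hxΩ₁ hG₁ hn hY hd' hdd hBL hs hκ
    have hha : h ≤ a := by
      have h1 : d' * h < d' * (a + 1) := by
        rw [mul_add, mul_one]
        omega
      exact Nat.lt_succ_iff.1 (Nat.lt_of_mul_lt_mul_left h1)
    refine rh_kod inferInstance hn hY hd' hdd hBL hs hc hram (fun j => ?_)
      (z := z ∘ Fin.castLE hha) (hz.comp _ (Fin.castLE_injective hha)) fun i => hzR _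
    obtain ⟨m, hm, ω, hω, X, hX, hind⟩ := hκ j
    refine ⟨m, hm, fun _ => ω 0, fun _ => hω 0, X, fun _ => hX 0, ?_⟩
    exact algebraicIndependent_empty_type
  refine ⟨hnum, fun κ hκ => ⟨hkod κ hκ, fun hle hh => ?_⟩, fun δ' hδ ν hν hle' S => ?_⟩
  · obtain ⟨h1, h2⟩ := hnum hh κ fun j => hkn j _ _ (hκ j)
    have h3 : ∑ j, c j * κ j = d' * h := le_antisymm h1 hle
    exact ⟨hkod κ hκ (by omega), h2 h3, h3.symm⟩
  · obtain ⟨D, hD, h1⟩ := bl_dist inferInstance hn hd (fun j => (hY j).fam) hBL
    choose C hC using fun j => mem_num (hν j) S (Nat.mul_pos hd hD)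
    refine ⟨∏ j, C j ^ c j + 1, fun m N hm hN => ?_⟩
    refine Pool.Agent.H891.KS.pow_bound hm hd hle' ?_
    have h4 := h1 δ δ' hδ S m 1 N (fun j => C j * m ^ ν j) hN fun j N' hN' => hC j m N' hm hN'
    have h5 : ∏ j, (C j * m ^ ν j) ^ (c j * D) =
        ((∏ j, C j ^ c j) * m ^ (∑ j, c j * ν j)) ^ D := by
      rw [← Finset.prod_pow_eq_pow_sum, ← Finset.prod_mul_distrib, ← Finset.prod_pow]
      refine Finset.prod_congr rfl fun j _ => ?_
      rw [mul_pow, mul_pow, ← pow_mul, ← pow_mul, ← pow_mul]
      congr 2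
      ring
    rw [h5, pow_mul] at h4
    exact (Nat.pow_le_pow_iff_left hD.ne').1 h4

end Pool.Agent.Results.MP_c2a5fc_ag.ReverseBrascampLieb
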