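import Pool.Agent.H897.TM

/-!
MP_c2a5fc_ag, Q1: abundance for varieties with tensors which are semistable along the generic fibre
of their moduli map.

**The variety.** `NormalModel y` (`Pool/Agent/Y172/Defs.lean`): `y` is the generic point, in
homogeneous coordinates, of a normal projective variety `X` with function field `K`, for instance a
projective manifold. A `Place ℂ K` is a (normalised discrete) valuation `Q` of `K` over `ℂ`;
`localRing y Q` is the local ring of `X` at the centre of `Q`, and `IsPrimeDivisor y P` says that `P`
is a prime divisor of `X`. `IsSection y n d 0 ω`: `ω` is a section of `d K_X`. `kodairaDim y n 0` and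
`numericalDim y n 0 A` are the Kodaira dimension and the numerical dimension (the growth of the
sections of `m K_X + A`, for any effective integral `A`) of `K_X`.

**The tensors** (`Pool/Agent/H897/TS.lean`). `Twisted a T`: `T` is a rational section of
`(Ω¹) ^ ⊗ m ⊗ O (a K_X)`, given as a tensor `T E` which depends on the choice of a basis `E` of the
rational vector fields and is multiplied with `det A ^ a` if `E` is changed by the matrix `A`.
`HoloAt P T`: it is holomorphic along the prime divisor `P`. The integers `a i` may be negative; the
condition `m i + n * a i ≥ 1` says that the scalars act with positive weight on the fibres (for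
instance `Ω ^ ⊗ p ⊗ T ^ ⊗ q` with `p > q` is contained in such a bundle).

**Semistability** (`Pool/Agent/H897/TI.lean`). `SemistableFam t`: the tensors `t i` on the
`n`-dimensional space are semistable for the special linear group in the sense of Hilbert and
Mumford. `SemistablePoint y Q T`: the centre of `Q` is a smooth point of `X` (`Coordinates`), and the
values of the `T i` at the centre are semistable; the values are in an algebraically closed extension
field of the residue field of `Q` (`ResMap`, `SemistableRes`). `SemistableAt P T`: the same for the
generic point of the prime divisor `P`.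

**The moduli.** `TwInv m n a d Q`: the polynomial `Q` in the coefficients of the tensors is a
semi-invariant of `GL n` of weight `d`. `Moduli a T E`: the quotients of the values of two
semi-invariants of the same weight `d ≥ 1`. They generate a field `F`, the function field of the
image `Z` of the moduli map of `X`.

**Theorem.** Suppose that for every place `Q` which is trivial on `F` (that is, at every point of
the generic fibre of the moduli map) `GoodCentre y F T Q` holds: the centre of `Q` is a smooth point
and the `T i` are semistable there, or the moduli map is regular at the centre (`F` is contained in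
the local ring) and the `T i` are semistable at the generic points of all prime divisors through the
centre. Then `κ (K_X) = ν (K_X) = dim Z`, and the Iitaka fibration of `X` is, up to generically finite
maps, the moduli map: all quotients of two sections of a multiple of `K_X` are algebraic over `F`.
There is no condition at the points which are not on the generic fibre of the moduli map.
If `X` is smooth and the `T i` are semistable at all points then moreover a multiple of `K_X` is
base point free.
-/

set_option autoImplicit false

open FF Pool.Agent.W602.GT Pool.Agent.Y172 Pool.Agent.NH31 Pool.Agent.H897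

namespace Pool.Agent.Results.MP_c2a5fc_ag.SemistableTensors

/-- **Abundance for varieties with semistable tensors.** -/
theorem result {K : Type} [Field K] [Algebra ℂ K] {N n : ℕ} {y : Fin (N + 1) → K}
    (hy : NormalModel y) (hn : Algebra.trdeg ℂ K = n) (hn1 : 1 ≤ n) {ι : Type} [Finite ι]
    {m : ι → ℕ} (hm : ∀ i, 1 ≤ m i) {a : ι → ℤ} (ha : ∀ i, 1 ≤ (m i : ℤ) + n * a i)
    {T : (i : ι) → (Fin n → Derivation ℂ K K) →
      MultilinearMap K (fun _ : Fin (m i) => Derivation ℂ K K) K}
    (hT : ∀ i, Twisted (a i) (T i)) (hh : ∀ P, IsPrimeDivisor y P → ∀ i, HoloAt P (T i))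
    {E : Fin n → Derivation ℂ K K} (hE : IsFrame E) :
    ((∀ Q : Place ℂ K, Horizontal (IntermediateField.adjoin ℂ (Moduli a T E)) Q →
        GoodCentre y (IntermediateField.adjoin ℂ (Moduli a T E)) T Q) →
      ∃ κ : ℕ, κ ≤ n ∧ Algebra.trdeg ℂ (IntermediateField.adjoin ℂ (Moduli a T E)) = κ ∧
        kodairaDim y n 0 = κ ∧
        (∀ A, Effective y A → Integral y A → numericalDim y n 0 A = κ) ∧
        ∀ (d : ℕ) (η η' : (Fin n → Derivation ℂ K K) → K), 1 ≤ d → IsSection y n d 0 η →
          IsSection y n d 0 η' → η' E ≠ 0 →
          IsAlgebraic (IntermediateField.adjoin ℂ (Moduli a T E)) (η E / η' E)) ∧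
    ((∀ Q : Place ℂ K, SemistablePoint y Q T) →
      ∃ d : ℕ, 1 ≤ d ∧ ∀ Q : Place ℂ K, ∃ ω : (Fin n → Derivation ℂ K K) → K,
        IsSection y n d 0 ω ∧ ∀ P, IsPrimeDivisor y P → Through y P Q → OrdEq P ω 0) := by
  refine ⟨fun hss => ?_, ts_bpf hy hn hn1 hm ha hT hh⟩
  obtain ⟨κ, hκ, m0, ω, hm0, hω, hω0, hind, hF, hup⟩ :=
    ts_growth hy hn hn1 hm ha hT hh hE hss
  have heff : Effective y (0 : Place ℂ K → ℚ) := ⟨fun P _ => le_rfl, by simp⟩
  obtain ⟨h1, h2⟩ := dims heff hE (fun A hA => hup A hA.2) hm0 hω hω0 hind
  refine ⟨κ, ?_, hκ, h1, h2, fun d η η' hd hη hη' h0 =>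
    ts_quot hE hm0 hω hω0 hind hF hup hd hη hη' h0⟩
  have h3 : AlgebraicIndependent ℂ (fun i : Fin κ => ω i.succ E / ω 0 E) := hind
  have h4 := h3.cardinalMk_le_trdeg
  rw [hn, Cardinal.mk_fin] at h4
  exact_mod_cast h4

end Pool.Agent.Results.MP_c2a5fc_ag.SemistableTensors
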